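import Pool.Agent.H71.TFC.M10

/-!
# The first case of Fermat's Last Theorem over abelian number fields, for almost all exponents

Let `K` be an abelian number field: a number field which embeds into the field of the `n`-th roots of unity
for some `n`.  Let `p` be a prime number and `a, b, c` nonzero elements of `K` with `a ^ p + b ^ p + c ^ p = 0`.
A prime `v` of `K` above `p` is good if it divides none of `a, b, c` (up to a common factor), that is, if
`a, b, c` have the same valuation at `v`; it is cubic if it is good and `(a : b : c) = (1 : ω : ω ^ 2)` modulo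
`v` with a primitive cube root of unity `ω`.  In the first case of Fermat's Last Theorem all the primes above
`p` are good.

(A) There is a set `B` of prime numbers, of natural density zero, and for every `n` a number `N`, such that for
all `K` in the field of the `n`-th roots of unity, all primes `p ≥ N` not in `B`, all solutions and all good
primes `v`: `v` is cubic, and `a a' = b b'` modulo `v`, where `a'`, `b'` are the complex conjugates of `a`, `b`;
and if `K` has a real embedding, there are no good primes.  So over every totally real abelian field the first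
case holds for all large prime exponents outside one fixed set of density zero.  (B) If `K` does not contain the primitive cube roots of
unity, and `2 ^ m` is the exact power of `2` which divides `[K : ℚ]`, then no solution has a good prime above
`p`, for a set of primes `p` of lower density at least `2 ^ (-m)`, and at least `1 - 2 ^ (-m)` if the Sylow
`2`-subgroup of `Gal(K/ℚ)` is cyclic.

The proof: let `L` be the field of the `f`-th roots of unity, `t_g` the residues of `- b / a` at the conjugates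
`g ∈ (ℤ / f)ˣ` of a place of `L` above `p`.  Stickelberger's theorem for the field of the `f p`-th roots of
unity, applied to `(a + ζ b) / (a + ζ⁻¹ b)`, gives for all even characters `χ` modulo `f` and all even `m` the
relation `β_(m+1)(χ) = 0` or `∑_g χ(g) ∑_{k ≥ 1} k ^ m t_g ^ k = 0` (the sum over the good `g`), with
`β_j(χ) = ∑_t ⌊c t / f p⌋ χ(t) t ^ (-j)` modulo `p` (`H77AB.twisted_kummer_mixed`).  For almost all `p` the
set of the `j` with `β_j(χ) = 0` contains no interval `[w, w ^ 4)` of a fixed finite family of such intervals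
(`H22GW.gapW`).  If the good `t_g` are not stable under inversion up to `g ↦ - g`, the second property does not
hold for all `m` in long intervals over an algebraically closed field of characteristic zero (`H59FD.sparseW`,
by `l`-adic interpolation), so that it does not hold in characteristic `p` for large `p`, by compactness.  The
same holds for `1 - t_g`; the only possibility is `t_g ^ 2 - t_g + 1 = 0`, `t_(-g) = 1 / t_g`.
-/

open NumberField IsDedekindDomain

namespace Pool.Agent.Results.MP_ef6a16_nt.FirstCaseAbelian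

/-- the prime `v` divides none of `a, b, c` (up to a common factor) -/
def EqualAt {K : Type*} [Field K] [NumberField K] (v : HeightOneSpectrum (𝓞 K)) (a b c : K) :
    Prop :=
  v.valuation K a = v.valuation K b ∧ v.valuation K b = v.valuation K c

/-- `v` divides none of `a, b, c`, and `a ^ 2 + a b + b ^ 2` is `0` modulo `v` (relative to `a ^ 2`),
so that `(a : b : c) = (1 : ω : ω ^ 2)` modulo `v` with a cube root of unity `ω ≠ 1` (for `v` not above `3`) -/
def CubicAt {K : Type*} [Field K] [NumberField K] (v : HeightOneSpectrum (𝓞 K)) (a b c : K) :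
    Prop :=
  EqualAt v a b c ∧ v.valuation K (a ^ 2 + a * b + b ^ 2) < v.valuation K (a ^ 2)

/-- Every prime above `p` divides one of `a, b, c`, for every solution -/
def AllDivide (K : Type*) [Field K] [NumberField K] (p : ℕ) : Prop :=
  ∀ a b c : K, a ≠ 0 → b ≠ 0 → c ≠ 0 → a ^ p + b ^ p + c ^ p = 0 →
    ∀ v : HeightOneSpectrum (𝓞 K), (p : 𝓞 K) ∈ v.asIdeal → ¬ EqualAt v a b c

/-- the primes in `S` have natural density zero in the set of all primes -/
def DensityZero (S : Set ℕ) : Prop :=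
  ∀ ε : ℝ, 0 < ε → ∃ x₀ : ℕ, ∀ x : ℕ, x₀ ≤ x →
    ({p : ℕ | p.Prime ∧ p ≤ x ∧ p ∈ S}.ncard : ℝ) ≤ ε * (x / Real.log x)

/-- the primes in `S` have lower density at least `δ` in the set of all primes -/
def LowerDensity (S : Set ℕ) (δ : ℝ) : Prop :=
  ∀ ε : ℝ, 0 < ε → ∃ x₀ : ℕ, ∀ x : ℕ, x₀ ≤ x →
    (δ - ε) * (x / Real.log x) ≤ ({p : ℕ | p.Prime ∧ p ≤ x ∧ p ∈ S}.ncard : ℝ)

/-- an embedding into the field of the `3 n`-th roots of unity -/
private theorem exists_emb3 (n : ℕ) (hn : 0 < n) : ∃ (_ : NeZero (n * 3))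
    (_ : IsCyclotomicExtension {n * 3} ℚ (CyclotomicField (n * 3) ℚ)),
    Nonempty (CyclotomicField n ℚ →+* CyclotomicField (n * 3) ℚ) := by
  have h1 : NeZero n := ⟨hn.ne'⟩
  have h2 : NeZero (n * 3) := ⟨by omega⟩
  have h3 : NeZero (((n : ℕ) : ℕ) : ℚ) := ⟨Nat.cast_ne_zero.2 (NeZero.ne n)⟩
  have h4 : NeZero (((n * 3 : ℕ) : ℕ) : ℚ) := ⟨Nat.cast_ne_zero.2 (NeZero.ne (n * 3))⟩
  have h5 : IsCyclotomicExtension {n} ℚ (CyclotomicField n ℚ) := CyclotomicField.isCyclotomicExtension n ℚ
  have h6 : IsCyclotomicExtension {n * 3} ℚ (CyclotomicField (n * 3) ℚ) :=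
    CyclotomicField.isCyclotomicExtension (n * 3) ℚ
  obtain ⟨φ⟩ := H9AB.exists_emb n 3 (CyclotomicField n ℚ) (CyclotomicField (n * 3) ℚ)
  exact ⟨h2, h6, ⟨(φ : CyclotomicField n ℚ →+* CyclotomicField (n * 3) ℚ)⟩⟩

/-- a real embedding: complex conjugation fixes `K` -/
private theorem cj_of_real (f : ℕ) [NeZero f] (L : Type*) [Field L] [NumberField L] [IsCyclotomicExtension {f} ℚ L]
    (K : Type*) [Field K] [NumberField K] (ι : K →+* L) (ρ : K →+* ℝ) (x : K) :
    (IsCyclotomicExtension.Rat.galEquivZMod f L).symm (-1) (ι x) = ι x := by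
  let _ : Algebra K L := ι.toAlgebra
  let _ : Algebra K ℂ := ((algebraMap ℝ ℂ).comp ρ).toAlgebra
  have h1 : Algebra.IsAlgebraic K L := by
    have : IsScalarTower ℚ K L := IsScalarTower.of_algebraMap_eq' (Subsingleton.elim _ _)
    exact Algebra.IsAlgebraic.tower_top (K := ℚ) K
  let Φ : L →ₐ[K] ℂ := IsAlgClosed.lift
  have h2 : ∀ y : K, Φ (ι y) = ((ρ y : ℝ) : ℂ) := fun y => Φ.commutes y
  apply (Φ : L →+* ℂ).injective
  have h3 := H66AB.map_cjM_eq_conj f L (Φ : L →+* ℂ) (ι x)
  refine h3.trans ?_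
  show (starRingEnd ℂ) (Φ (ι x)) = Φ (ι x)
  rw [h2, Complex.conj_ofReal]

/-- part (A) for one `n` -/
private theorem one_level (n : ℕ) (hn : 0 < n) : ∃ B : Set ℕ, DensityZero B ∧
    ∀ (K : Type*) [Field K] [NumberField K], Nonempty (K →+* CyclotomicField n ℚ) → ∀ p : ℕ, p.Prime → p ∉ B →
      (∀ a b c : K, a ≠ 0 → b ≠ 0 → c ≠ 0 → a ^ p + b ^ p + c ^ p = 0 →
        ∀ v : HeightOneSpectrum (𝓞 K), (p : 𝓞 K) ∈ v.asIdeal → EqualAt v a b c →
          CubicAt v a b c ∧
          ∀ j : K →+* K, (∀ (φ : K →+* ℂ) (x : K), φ (j x) = (starRingEnd ℂ) (φ x)) →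
            v.valuation K (a * j a - b * j b) < v.valuation K (a * j a)) ∧
      (Nonempty (K →+* ℝ) → AllDivide K p) := by
  obtain ⟨h1, h2, ⟨κ⟩⟩ := exists_emb3 n hn
  set f := n * 3 with hf
  refine ⟨{p | (¬ ∀ (_ : Fact p.Prime), H88AB.SymL f (CyclotomicField f ℚ) p (AlgebraicClosure (ZMod p))) ∨
    p ≤ max 5 f}, Pool.Agent.H71.FD.densityZero_of_null' _ ((H72AB.null_sym f (by omega)
      (CyclotomicField f ℚ)).or (Pool.Agent.H71.FD.Null_of_bounded _ fun p _ hp => hp)), ?_⟩
  intro K _ _ ⟨ι⟩ p hp hB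
  rw [Set.mem_ofPred_eq, not_or, not_not, not_le] at hB
  obtain ⟨hsym, hbig⟩ := hB
  have hfact : Fact p.Prime := ⟨hp⟩
  have hp5 : 5 < p := lt_of_le_of_lt (le_max_left _ _) hbig
  have hpf : f < p := lt_of_le_of_lt (le_max_right _ _) hbig
  refine ⟨fun a b c ha hb hc h v hv he => ⟨⟨he, ?_⟩, fun j hj => ?_⟩, fun ⟨ρ⟩ => ?_⟩
  · exact H72AB.strong_K f (CyclotomicField f ℚ) (κ.comp ι) p (by omega) (AlgebraicClosure (ZMod p)) (hsym hfact)
      a b c ha hb hc h v hv he
  · exact H72AB.strong_conj f (CyclotomicField f ℚ) (κ.comp ι) p (by omega) (AlgebraicClosure (ZMod p)) (hsym hfact)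
      j hj a b c ha hb hc h v hv he
  · exact H87AB.fcs_of_good f (Dvd.intro_left n rfl) (CyclotomicField f ℚ) K (κ.comp ι) p hp5.le
      (fun h => by have := Nat.le_of_dvd (NeZero.pos f) h; omega)
      (H87AB.goodClass_real f (Dvd.intro_left n rfl) (CyclotomicField f ℚ) K (κ.comp ι)
        (cj_of_real f (CyclotomicField f ℚ) K (κ.comp ι) ρ) p)
      (H87AB.strongAt_of f (CyclotomicField f ℚ) p (by omega) (hsym hfact))

theorem result :
    -- (A)
    (∃ B : Set ℕ, DensityZero B ∧ ∀ n : ℕ, 0 < n → ∃ N : ℕ, ∀ (K : Type*) [Field K] [NumberField K],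
      Nonempty (K →+* CyclotomicField n ℚ) → ∀ p : ℕ, p.Prime → N ≤ p → p ∉ B →
        (∀ a b c : K, a ≠ 0 → b ≠ 0 → c ≠ 0 → a ^ p + b ^ p + c ^ p = 0 →
          ∀ v : HeightOneSpectrum (𝓞 K), (p : 𝓞 K) ∈ v.asIdeal → EqualAt v a b c →
            CubicAt v a b c ∧
            ∀ j : K →+* K, (∀ (φ : K →+* ℂ) (x : K), φ (j x) = (starRingEnd ℂ) (φ x)) →
              v.valuation K (a * j a - b * j b) < v.valuation K (a * j a)) ∧
        (Nonempty (K →+* ℝ) → AllDivide K p)) ∧
    -- (B)
    (∀ (n : ℕ) (K : Type*) [Field K] [NumberField K], 0 < n → Nonempty (K →+* CyclotomicField n ℚ) →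
      (∀ ω : K, ω ^ 2 + ω + 1 ≠ 0) → ∀ m t : ℕ, Odd t → Module.finrank ℚ K = 2 ^ m * t →
      LowerDensity {p : ℕ | AllDivide K p} (1 / 2 ^ m) ∧
      ((∀ P : Sylow 2 Gal(K/ℚ), IsCyclic P) → LowerDensity {p : ℕ | AllDivide K p} (1 - 1 / 2 ^ m))) := by
  refine ⟨?_, fun n K _ _ hn hK hω m t ht hd => ?_⟩
  · choose S hS hK using fun n : ℕ => one_level (n + 1) (Nat.succ_pos n)
    obtain ⟨B, hB, hN⟩ := Pool.Agent.H21.DZ.common S hS
    refine ⟨B, hB, fun n hn => ?_⟩
    obtain ⟨m, rfl⟩ : ∃ m, n = m + 1 := ⟨n - 1, by omega⟩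
    obtain ⟨N, hN⟩ := hN m
    exact ⟨N, fun K _ _ hι p hp hNp hpB => hK m K hι p hp fun hpS => hpB (hN p hpS hNp)⟩
  · obtain ⟨h1, h2, ⟨κ⟩⟩ := exists_emb3 n hn
    obtain ⟨ι⟩ := hK
    set f := n * 3 with hf
    have h3 : 3 ∣ f := Dvd.intro_left n rfl
    obtain ⟨A, hA, hd1, hd2, hg⟩ :=
      Pool.Agent.H42.AB.good_classes2 f (CyclotomicField f ℚ) K (κ.comp ι) h3 hω ht hd
    have key : ∀ δ : ℝ, δ ≤ (A.card : ℝ) / (f.totient : ℝ) → LowerDensity {p : ℕ | AllDivide K p} δ := by
      intro δ hδ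
      exact Pool.Agent.H71.FD.lower_of_cn {p : ℕ | AllDivide K p} (fun p => H87AB.FCS K p) (fun _ => False) δ
        (fun ε hε => H87AB.fcs_density_abelian f h3 (CyclotomicField f ℚ) K (κ.comp ι) A hA
          (fun a ha => hg a ha) δ hδ ε hε)
        (Pool.Agent.H71.FD.Null_of_bounded 0 fun p _ hp => hp.elim) (fun p _ h _ => h)
    exact ⟨key _ hd1, fun hcyc => key _ (hd2 hcyc)⟩

end Pool.Agent.Results.MP_ef6a16_nt.FirstCaseAbelian
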