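import Pool.Agent.H10.CQ.Fin4
import Pool.Agent.H10.CQ.Elim4
import Pool.Agent.H10.CQ.Elim5
import Pool.Agent.H10.CQ.Cubic
import Pool.Agent.H10.CQ.Count3
import Pool.Agent.H88.CQ.Seven

/-!
# The Fermat equation over number fields of degree 3, 4, 5 and 7

Let `K` be a number field and `p` a prime number with `2 ^ (p - 1)` not congruent to `1` modulo `p ^ 2`.
`Holds K p` is the first case: there are no nonzero `a, b, c ∈ K` with `a ^ p + b ^ p + c ^ p = 0` such
that no prime of `K` above `p` divides one of `a, b, c` (up to a common factor of the three elements).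

* `p ≥ 5`, `K` any cubic field: `Holds K p`.  For every solution in nonzero `a, b, c ∈ K` the places above
  `p` (with local degrees) which divide none of `a, b, c` are `0` or `2` in number, and there
  `(a : b : c) = (1 : ω : ω ^ 2)`, `ω ^ 2 + ω + 1 = 0`.
* `p > 73`, `p ≠ 2471017`: `Holds K p` for every number field `K` of degree `5`, and for those of degree `7`
  whose residue fields above `2` have at most `4` elements.
* `p > 73`, `K` of degree `4` with a prime with residue field `𝔽₂`: `Holds K p` if all residue fields above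
  `2` have at most `4` elements or if `p` is unramified in `K` and does not divide the class number.  For
  every `K` of degree `4` a solution in the first case satisfies `(a : b : c) = (1 : ω : ω ^ 2)` modulo every
  prime above `p`.

The condition on `p` holds for at least `(3 / 10) X / log X` of the primes `p ≤ X` (`X ≥ X₀`).
There is no condition on the class group of `K` or of `ℚ(ζ_p)`, on units, or on the ramification of `p`
in `K`, except in the second statement on degree `4`.
-/

open NumberField IsDedekindDomain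

namespace Pool.Agent.Results.MP_ef6a16_nt.FirstCaseLowDegree

universe u

/-- the prime `v` of `K` divides `x` relative to the triple `x, y, z` -/
def Divides {K : Type u} [Field K] [NumberField K] (v : HeightOneSpectrum (𝓞 K)) (x y z : K) : Prop :=
  v.valuation K x < max (v.valuation K y) (v.valuation K z)

/-- the sum of the local degrees `e f` of the primes of `K` above `p` which divide `x` relative to
the triple `x, y, z` -/
noncomputable def n (K : Type u) [Field K] [NumberField K] (p : ℕ) (x y z : K) : ℕ :=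
  ∑ᶠ v ∈ {v : HeightOneSpectrum (𝓞 K) | (p : 𝓞 K) ∈ v.asIdeal ∧ Divides v x y z},
    v.asIdeal.ramificationIdx ℤ * v.asIdeal.inertiaDeg ℤ

/-- the prime `v` divides none of `a, b, c` -/
def EqualAt {K : Type u} [Field K] [NumberField K] (v : HeightOneSpectrum (𝓞 K)) (a b c : K) : Prop :=
  v.valuation K a = v.valuation K b ∧ v.valuation K b = v.valuation K c

/-- the first case: no prime of `K` above `p` divides `a`, `b` or `c` (up to a common factor) -/
def FirstCase {K : Type u} [Field K] [NumberField K] (p : ℕ) (a b c : K) : Prop :=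
  ∀ v : HeightOneSpectrum (𝓞 K), (p : 𝓞 K) ∈ v.asIdeal → EqualAt v a b c

/-- the first case of Fermat's Last Theorem holds over `K` for the exponent `p` -/
def Holds (K : Type u) [Field K] [NumberField K] (p : ℕ) : Prop :=
  ∀ a b c : K, a ≠ 0 → b ≠ 0 → c ≠ 0 → a ^ p + b ^ p + c ^ p = 0 → ¬ FirstCase p a b c

/-- the residue fields of `K` above `2` have at most `4` elements -/
def Small (K : Type u) [Field K] [NumberField K] : Prop :=
  ∀ v : HeightOneSpectrum (𝓞 K), (2 : 𝓞 K) ∈ v.asIdeal → Nat.card (𝓞 K ⧸ v.asIdeal) ≤ 4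

/-- `K` has a prime whose residue field has two elements -/
def HasTwo (K : Type u) [Field K] [NumberField K] : Prop :=
  ∃ v : HeightOneSpectrum (𝓞 K), Nat.card (𝓞 K ⧸ v.asIdeal) = 2

/-- all number fields of degree `3` and `5`, and those of degree `7` and `4` with conditions on the
primes above `2` -/
def Admissible (K : Type u) [Field K] [NumberField K] : Prop :=
  Module.finrank ℚ K = 3 ∨ Module.finrank ℚ K = 5 ∨ (Module.finrank ℚ K = 7 ∧ Small K) ∨
    (Module.finrank ℚ K = 4 ∧ Small K ∧ HasTwo K)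

theorem holds_three (p : ℕ) (hp : p.Prime) (h5 : 5 ≤ p) (hW : ¬ p ^ 2 ∣ 2 ^ (p - 1) - 1)
    (K : Type u) [Field K] [NumberField K] (hK : Module.finrank ℚ K = 3) : Holds K p := by
  intro a b c ha hb hc h hf
  haveI : Fact p.Prime := ⟨hp⟩
  obtain ⟨t, ht⟩ := H10CQ.exists_six K p h5 3 hK (by omega) hW a b c ha hb hc h hf
  exact H10CQ.no_six_three (p := p) h5 t ht

theorem holds_of_admissible (p : ℕ) (hp : p.Prime) (h73 : 73 < p) (hp' : p ≠ 2471017)
    (hW : ¬ p ^ 2 ∣ 2 ^ (p - 1) - 1) (K : Type u) [Field K] [NumberField K] (hK : Admissible K) :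
    Holds K p := by
  rcases hK with hK | hK | ⟨hK, h2⟩ | ⟨hK, h2, Q, hQ⟩
  · exact holds_three p hp (by omega) hW K hK
  · intro a b c ha hb hc h hf
    haveI : Fact p.Prime := ⟨hp⟩
    obtain ⟨t, ht⟩ := H10CQ.exists_six K p (by omega) 5 hK (by omega) hW a b c ha hb hc h hf
    exact H10CQ.no_six_five (p := p) (by omega) hp' t ht
  · intro a b c ha hb hc h hf
    haveI : Fact p.Prime := ⟨hp⟩
    exact H10CQ.seven K p (by omega) hK hW h2 a b c ha hb hc h hf
  · intro a b c ha hb hc h hf
    haveI : Fact p.Prime := ⟨hp⟩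
    refine H10CQ.even_two K p (by omega) (by omega) (by omega) hW ?_ a b c ha hb hc h hf h2 Q hQ
    rw [hK]
    exact fun t ht => H10CQ.six_four (p := p) (by omega) (by omega) t ht

theorem result :
    -- cubic fields, all solutions
    (∀ p : ℕ, p.Prime → 5 ≤ p → ¬ p ^ 2 ∣ 2 ^ (p - 1) - 1 →
      ∀ (K : Type u) [Field K] [NumberField K], Module.finrank ℚ K = 3 →
        Holds K p ∧
        ∀ a b c : K, a ≠ 0 → b ≠ 0 → c ≠ 0 → a ^ p + b ^ p + c ^ p = 0 →
          ∃ s : ℕ, s + n K p a b c + n K p b c a + n K p c a b = 3 ∧ (s = 0 ∨ s = 2) ∧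
            ∀ v : HeightOneSpectrum (𝓞 K), (p : 𝓞 K) ∈ v.asIdeal → EqualAt v a b c →
              v.valuation K (a ^ 2 + a * b + b ^ 2) < v.valuation K (a ^ 2)) ∧
    -- fields of degree 3, 4, 5, 7, the first case
    (∀ p : ℕ, p.Prime → 73 < p → p ≠ 2471017 → ¬ p ^ 2 ∣ 2 ^ (p - 1) - 1 →
      ∀ (K : Type u) [Field K] [NumberField K],
        (Admissible K → Holds K p) ∧
        (Module.finrank ℚ K = 4 → HasTwo K →
          (∀ v : HeightOneSpectrum (𝓞 K), (p : 𝓞 K) ∈ v.asIdeal → (p : 𝓞 K) ∉ v.asIdeal ^ 2) →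
          ¬ p ∣ classNumber K → Holds K p) ∧
        (Module.finrank ℚ K = 4 → ∀ a b c : K, a ≠ 0 → b ≠ 0 → c ≠ 0 → a ^ p + b ^ p + c ^ p = 0 →
          FirstCase p a b c → ∀ v : HeightOneSpectrum (𝓞 K), (p : 𝓞 K) ∈ v.asIdeal →
            v.valuation K (a ^ 2 + a * b + b ^ 2) < v.valuation K (a ^ 2))) ∧
    -- a positive proportion of the primes, the same for all these fields
    (∃ X₀ : ℕ, ∀ X : ℕ, X₀ ≤ X → (3 / 10 : ℝ) * X / Real.log X ≤
      Nat.card {p : ℕ // p.Prime ∧ p ≤ X ∧
        ∀ (K : Type u) [Field K] [NumberField K], Admissible K → Holds K p}) ∧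
    (∀ (K : Type u) [Field K] [NumberField K], Module.finrank ℚ K = 4 → HasTwo K →
      ∃ X₀ : ℕ, ∀ X : ℕ, X₀ ≤ X → (3 / 10 : ℝ) * X / Real.log X ≤
        Nat.card {p : ℕ // p.Prime ∧ p ≤ X ∧ Holds K p}) := by
  have four : ∀ p : ℕ, p.Prime → 73 < p → ¬ p ^ 2 ∣ 2 ^ (p - 1) - 1 →
      ∀ (K : Type u) [Field K] [NumberField K], Module.finrank ℚ K = 4 → HasTwo K →
        (∀ v : HeightOneSpectrum (𝓞 K), (p : 𝓞 K) ∈ v.asIdeal → (p : 𝓞 K) ∉ v.asIdeal ^ 2) →
        ¬ p ∣ classNumber K → Holds K p := by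
    intro p hp h73 hW K _ _ hK hQ hu hcl a b c ha hb hc h hf
    haveI : Fact p.Prime := ⟨hp⟩
    obtain ⟨Q, hQ⟩ := hQ
    refine H10CQ.even_one K p (by omega) (by omega) hW ?_ hu hcl a b c ha hb hc h hf Q hQ
    rw [hK]
    exact fun t ht => H10CQ.six_four (p := p) (by omega) (by omega) t ht
  refine ⟨fun p hp h5 hW K _ _ hK => ⟨holds_three p hp h5 hW K hK, fun a b c ha hb hc h => ?_⟩,
    fun p hp h73 hp' hW K _ _ => ⟨holds_of_admissible p hp h73 hp' hW K,
      four p hp h73 hW K, fun hK a b c ha hb hc h hf v hv => ?_⟩, ?_, ?_⟩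
  · haveI : Fact p.Prime := ⟨hp⟩
    obtain ⟨s, h1, h2, h3⟩ := H10CQ.cubic_all K p h5 hK hW a b c ha hb hc h
    exact ⟨s, h1, h2, fun v hv he => h3 v hv he.1 he.2⟩
  · haveI : Fact p.Prime := ⟨hp⟩
    refine (H10CQ.cubic_at K p (by omega) (by omega) hW ?_ a b c ha hb hc h hf v hv).1
    rw [hK]
    exact fun t ht => H10CQ.six_four (p := p) (by omega) (by omega) t ht
  · exact H10CQ.count_good3 _ 2471017 fun p hp h73 hW K _ _ hK =>
      holds_of_admissible p hp (by omega) (by omega) hW K hK
  · intro K _ _ hK hQ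
    obtain ⟨B, hB⟩ := (H91SP.bad_primes_finite K).bddAbove
    refine H10CQ.count_good3 _ (max 73 B) fun p hp h73 hW => ?_
    have h1 : ¬ (¬ H91SP.Unr p K ∨ p ∣ classNumber K) := by
      intro hbad
      have h2 : p ≤ B := hB ⟨hp, hbad⟩
      have h3 := le_max_right 73 B
      omega
    rw [not_or, not_not] at h1
    exact four p hp (by have := le_max_left 73 B; omega) hW K hK hQ h1.1 h1.2

end Pool.Agent.Results.MP_ef6a16_nt.FirstCaseLowDegree
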