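import Pool.Agent.H73.QX.HF3
import Pool.Agent.H2.HF.LowB

/-!
# The first case of Fermat's Last Theorem over every quadratic field without cube roots of unity, for a
positive proportion of the prime exponents

Let `NonWieferich` be the set of the primes `p ≥ 5` with `2 ^ (p - 1)` not congruent to `1` modulo
`p ^ 2`.  For a number field `K`, `FirstCase K p` says that for all nonzero `a, b, c ∈ K` with
`a ^ p + b ^ p + c ^ p = 0` every prime of `K` above `p` divides one of `a, b, c` (up to a common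
factor); in particular, there are no solutions with `a b c` prime to `p`.

Theorem.  The set `NonWieferich` contains at least `(3 / 10) x / log x` primes up to `x`, for all large
`x`.  Let `K = ℚ(√d)` be a quadratic field, `d ≠ -3`.  Then `FirstCase K p` holds for at least one per
cent of the primes `p` (at least `(1 / 100) x / log x` primes `p ≤ x`, for all large `x`), all in
`NonWieferich`.  More precisely, it holds for all `p ∈ NonWieferich` if `2` ramifies in `K`, for all but
finitely many `p ∈ NonWieferich` if `2` splits, and for all `p ∈ NonWieferich` with `(-3 d / p) ≠ 1` if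
`2` is inert.  For `d = -3` the first case fails for every `p ≥ 5`, because of `1 + ω + ω ^ 2 = 0`.

For every `p ∈ NonWieferich` with `FirstCase K p` (so, for all the exponents above) the following holds
for the remaining solutions: after a cyclic permutation of `a, b, c`, either every prime of `K` above `2`
or `p` divides `a` and neither `b` nor `c` (up to a common factor), or `2` splits in `K`, and for `r = 2`
and for `r = p` some prime above `r` divides only `a` and some prime above `r` divides only `b`.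

The proof of the density statements (`Pool.Agent.H80.HF`).  Let `F_0 = 1`,
`F_(t + 1)(y) F_t(y) = (3 (t + y) + 2) / (3 (t + y) + 1)` for `t ∈ ℤ`.  If `2 ^ (p - 1) ≡ 1 (mod p ^ 2)`,
there is a rational function `g` over `𝔽_p` with `g(t + y) ≡ F_t(y) (mod y ^ 3)` for all `|t| ≤ L`,
whose degree is about `p / 6`; hence the matrix of the linear conditions
`A(t + y) ≡ F_t(y) B(t + y) (mod y ^ 3)` on two polynomials `A, B` of degree `< 3 L`, whose rank over `ℚ`
is maximal, has a large kernel modulo `p`, and a nonzero maximal minor is divisible by a large power of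
`p`.  Comparing all valuations of such a minor with its size shows that the Wieferich primes in
`(2 L, 18 L]` have less than half of the mass of all primes, for the weight `3 L - p / 6`, whereas the
primes with `(D / p) = -1` have one half, for every non-square `D`.
-/

open NumberField IsDedekindDomain

namespace Pool.Agent.Results.MP_ef6a16_nt.FirstCaseQuadratic

/-- Every prime of `K` above `p` divides one of `a, b, c`, for every solution `a, b, c ∈ K` of the Fermat
equation of exponent `p`: the valuations of `a, b, c` at such a prime are not all equal. -/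
def FirstCase (K : Type*) [Field K] [NumberField K] (p : ℕ) : Prop :=
  ∀ a b c : K, a ≠ 0 → b ≠ 0 → c ≠ 0 → a ^ p + b ^ p + c ^ p = 0 →
    ∀ v : HeightOneSpectrum (𝓞 K), (p : 𝓞 K) ∈ v.asIdeal →
      ¬ (v.valuation K a = v.valuation K b ∧ v.valuation K b = v.valuation K c)

/-- The primes `p ≥ 5` which are not Wieferich primes. -/
def NonWieferich : Set ℕ := {p : ℕ | p.Prime ∧ 5 ≤ p ∧ ¬ p ^ 2 ∣ 2 ^ (p - 1) - 1}

/-- The prime `v` of `K` divides `x` and neither `y` nor `z`, up to a common factor of the three. -/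
def Only {K : Type*} [Field K] [NumberField K] (v : HeightOneSpectrum (𝓞 K)) (x y z : K) : Prop :=
  v.valuation K x < v.valuation K y ∧ v.valuation K y = v.valuation K z

/-- `(x, y, z)` is a cyclic permutation of `(a, b, c)`. -/
def IsRotation {K : Type*} (a b c x y z : K) : Prop :=
  (x = a ∧ y = b ∧ z = c) ∨ (x = b ∧ y = c ∧ z = a) ∨ (x = c ∧ y = a ∧ z = b)

/-- The second case: after a cyclic permutation of the variables, every prime of `K` above `2` or `p`
divides only the first variable. -/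
def Aligned {K : Type*} [Field K] [NumberField K] (p : ℕ) (a b c : K) : Prop :=
  ∃ x y z : K, IsRotation a b c x y z ∧
    ∀ v : HeightOneSpectrum (𝓞 K), ((2 : 𝓞 K) ∈ v.asIdeal ∨ (p : 𝓞 K) ∈ v.asIdeal) → Only v x y z

/-- The other possibility if `2` splits in `K`: after a cyclic permutation of the variables, some prime
above `2` divides only the first variable, some prime above `2` only the second one, and the same for
`p`. -/
def Crossed {K : Type*} [Field K] [NumberField K] (p : ℕ) (a b c : K) : Prop :=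
  ∃ x y z : K, IsRotation a b c x y z ∧ ∀ r : ℕ, (r = 2 ∨ r = p) →
    (∃ v : HeightOneSpectrum (𝓞 K), (r : 𝓞 K) ∈ v.asIdeal ∧ Only v x y z) ∧
    (∃ v : HeightOneSpectrum (𝓞 K), (r : 𝓞 K) ∈ v.asIdeal ∧ Only v y z x)

private theorem second_case (d : ℤ) (hd : Squarefree d) (hd1 : d ≠ 1) (K : Type*) [Field K] [NumberField K]
    (hK : Module.finrank ℚ K = 2) (δ : K) (hδ : δ ^ 2 = (d : K)) (p : ℕ) (hp : p ∈ NonWieferich)
    (hF : FirstCase K p) (a b c : K) (ha : a ≠ 0) (hb : b ≠ 0) (hc : c ≠ 0)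
    (h : a ^ p + b ^ p + c ^ p = 0) :
    Aligned p a b c ∨ (d % 8 = 1 ∧ Crossed p a b c) := by
  have : Fact p.Prime := ⟨hp.1⟩
  have h1 : IsRotation a b c a b c := Or.inl ⟨rfl, rfl, rfl⟩
  have h2 : IsRotation a b c b c a := Or.inr (Or.inl ⟨rfl, rfl, rfl⟩)
  have h3 : IsRotation a b c c a b := Or.inr (Or.inr ⟨rfl, rfl, rfl⟩)
  obtain ⟨v, hv⟩ := Pool.Agent.H73.QX.exists_above K p hp.1
  have hN := hF a b c ha hb hc h v hv
  rcases Pool.Agent.H22.WQ.main p hp.2.1 hp.2.2 hK d hd hd1 δ hδ ha hb hc h with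
    (e | e | e) | ⟨e8, e | e | e | e⟩ | ⟨e8, e⟩
  · exact Or.inl ⟨a, b, c, h1, e⟩
  · exact Or.inl ⟨b, c, a, h2, e⟩
  · exact Or.inl ⟨c, a, b, h3, e⟩
  · exact Or.inr ⟨e8, a, b, c, h1, e⟩
  · exact Or.inr ⟨e8, b, c, a, h2, e⟩
  · exact Or.inr ⟨e8, c, a, b, h3, e⟩
  · exact absurd (e.1 v hv) hN
  · exact absurd (e.1 v (Or.inr hv)) hN

/-- Main theorem. -/
theorem result :
    (∃ x₀ : ℕ, ∀ x : ℕ, x₀ ≤ x →
      3 / 10 * (x : ℝ) / Real.log x ≤ ({p ∈ NonWieferich | p ≤ x}.ncard : ℝ)) ∧
    ∀ d : ℤ, Squarefree d → d ≠ 1 → d ≠ -3 → ∀ (K : Type*) [Field K] [NumberField K],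
      Module.finrank ℚ K = 2 → ∀ δ : K, δ ^ 2 = (d : K) →
        -- one per cent of all exponents
        (∃ x₀ : ℕ, ∀ x : ℕ, x₀ ≤ x →
          1 / 100 * (x : ℝ) / Real.log x ≤ ({p ∈ NonWieferich | p ≤ x ∧ FirstCase K p}.ncard : ℝ)) ∧
        -- `2` ramifies in `K`
        (d % 4 ≠ 1 → ∀ p ∈ NonWieferich, FirstCase K p) ∧
        -- `2` splits in `K`
        (d % 8 = 1 → {p ∈ NonWieferich | ¬ FirstCase K p}.Finite) ∧
        -- `2` is inert in `K`
        (d % 8 = 5 → ∀ p ∈ NonWieferich, jacobiSym (-3 * d) p ≠ 1 → FirstCase K p) ∧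
        -- for all these exponents: the second case
        (∀ p ∈ NonWieferich, FirstCase K p →
          ∀ a b c : K, a ≠ 0 → b ≠ 0 → c ≠ 0 → a ^ p + b ^ p + c ^ p = 0 →
            Aligned p a b c ∨ (d % 8 = 1 ∧ Crossed p a b c)) := by
  have hset : ∀ (G : ℕ → Prop) (x : ℕ), Pool.Agent.H71.FD.cn
      (fun p => 5 ≤ p ∧ ¬ Pool.Agent.H11.NW.Wf p ∧ G p) x =
        {p ∈ NonWieferich | p ≤ x ∧ G p}.ncard := by
    intro G x
    rw [Pool.Agent.H71.FD.cn_eq_ncard]
    congr 1
    ext p
    simp only [Set.mem_ofPred_eq, NonWieferich, Pool.Agent.H11.NW.Wf]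
    constructor
    · rintro ⟨a1, a2, a3, a4, a5⟩
      exact ⟨⟨a1, a3, a4⟩, a2, a5⟩
    · rintro ⟨⟨a1, a3, a4⟩, a2, a5⟩
      exact ⟨a1, a2, a3, a4, a5⟩
  have h0 : ∀ᶠ x : ℕ in Filter.atTop, 3 / 10 * ((x : ℝ) / Real.log x) ≤
      (Pool.Agent.H71.FD.cn (fun p => 5 ≤ p ∧ ¬ Pool.Agent.H11.NW.Wf p ∧ True) x : ℝ) := by
    obtain ⟨x₀, h⟩ := Pool.Agent.H2.HF.low_NW Pool.Agent.H80.HF.main_ineq
    filter_upwards [Filter.eventually_ge_atTop x₀] with x hx
    rw [← mul_div_assoc, hset]
    refine (h x hx).trans (le_of_eq ?_)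
    congr 2
    ext p
    simp only [Set.mem_ofPred_eq, NonWieferich, Pool.Agent.H2.HF.NonW]
    tauto
  refine ⟨?_, fun d hd hd1 hd3 K _ _ hK δ hδ => ?_⟩
  · obtain ⟨x₀, h⟩ := Filter.eventually_atTop.1 h0
    refine ⟨x₀, fun x hx => ?_⟩
    rw [mul_div_assoc]
    refine (h x hx).trans (le_of_eq ?_)
    rw [hset]
    simp
  · have hA : d % 4 ≠ 1 → ∀ p ∈ NonWieferich, FirstCase K p := by
      intro h4 p hp
      have : Fact p.Prime := ⟨hp.1⟩
      exact Pool.Agent.H73.QX.firstCase_of p hp.2.1 hp.2.2 K hK d hd hd1 δ hδ (fun h => by omega)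
        (fun h => by omega)
    have hB : d % 8 = 1 → ∃ N : ℕ, ∀ p ∈ NonWieferich, N ≤ p → FirstCase K p := by
      intro h8
      obtain ⟨N, hN⟩ := Pool.Agent.H73.QX.split_case K hK d hd hd1 h8 δ hδ
      exact ⟨N, fun p hp hpN => hN p hp.1 hpN hp.2.2⟩
    have hP : ∀ᶠ x : ℕ in Filter.atTop, 1 / 100 * ((x : ℝ) / Real.log x) ≤
        (Pool.Agent.H71.FD.cn
          (fun p => 5 ≤ p ∧ ¬ Pool.Agent.H11.NW.Wf p ∧ FirstCase K p) x : ℝ) := by
      rcases Classical.em (d % 8 = 5) with h5 | h5
      · exact Pool.Agent.H73.QX.inert_low d hd h5 hd3 K hK δ hδ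
      · obtain ⟨N, hN⟩ : ∃ N : ℕ, ∀ p ∈ NonWieferich, N ≤ p → FirstCase K p := by
          rcases Classical.em (d % 8 = 1) with h8 | h8
          · exact hB h8
          · exact ⟨0, fun p hp _ => hA (by omega) p hp⟩
        have hnull : Pool.Agent.H71.FD.Null (fun p => p ≤ N) :=
          Pool.Agent.H71.FD.Null_of_bounded N (fun p _ h => h)
        filter_upwards [Pool.Agent.H71.FD.cn_sdiff (3 / 10) h0 hnull (1 / 10) (by norm_num),
          Filter.eventually_ge_atTop 2] with x hx hx2
        have hl : (0 : ℝ) ≤ (x : ℝ) / Real.log x :=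
          div_nonneg (Nat.cast_nonneg x) (Real.log_natCast_nonneg x)
        refine le_trans ?_ (hx.trans (Nat.cast_le.2 (Pool.Agent.H71.FD.cn_mono (fun p hp hg => ?_) x)))
        · nlinarith
        · exact ⟨hg.1.1, hg.1.2.1, hN p ⟨hp, hg.1.1, hg.1.2.1⟩ (not_le.1 hg.2).le⟩
    refine ⟨?_, hA, fun h8 => ?_, fun h5 p hp hj => ?_, fun p hp hF a b c ha hb hc h =>
      second_case d hd hd1 K hK δ hδ p hp hF a b c ha hb hc h⟩
    · obtain ⟨x₀, h⟩ := Filter.eventually_atTop.1 hP
      refine ⟨x₀, fun x hx => ?_⟩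
      rw [mul_div_assoc]
      refine (h x hx).trans (le_of_eq ?_)
      rw [hset]
    · obtain ⟨N, hN⟩ := hB h8
      refine (Set.finite_lt_nat N).subset fun p hp => ?_
      by_contra hcon
      exact hp.2 (hN p hp.1 (not_lt.1 hcon))
    · exact Pool.Agent.H73.QX.inert_case d hd h5 p hp.1 hp.2.1 hp.2.2 hj K hK δ hδ

end Pool.Agent.Results.MP_ef6a16_nt.FirstCaseQuadratic
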