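import Pool.Agent.H71.TFC.M16
import Pool.Agent.H71.TFC.M18

/-!
# The reductions of the solutions of the Fermat equation over number fields, for almost all exponents

Let `K` be a number field, `p` a prime number, and `a, b, c` nonzero elements of `K` with
`a ^ p + b ^ p + c ^ p = 0`.  A prime `v` of `K` above `p` is good if it divides none of `a, b, c` (up to a
common factor), that is, if `a, b, c` have the same valuation at `v`, and cubic if it is good and
`(a : b : c) = (1 : ω : ω ^ 2)` modulo `v` with a primitive cube root of unity `ω`.  In the first case of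
Fermat's Last Theorem all the primes above `p` are good.

(A) There are a set `B` of prime numbers, of natural density zero, and for every `n` a bound `N` such that for all
extensions `K / F` of degree at most `n` of totally real fields `F` contained in the field of the `n`-th roots of
unity, all primes `p ≥ N` not in `B`, all solutions in `K` and all primes `w` of `F` above `p`: (1) the polynomial
`N_{K/F}(a + X b)` modulo `w` has the roots `x`, `1 / x`, `1 - x` with the same multiplicity; (2) the cubic
primes above `w` have even residue degrees if `N w ≡ 2 (mod 3)`, and can be divided into two parts of equal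
weight (sum of the local degrees over `F`) if `N w ≡ 1 (mod 3)`; the other good primes above `w` form three
groups which can be divided into `6`, `3` and `2` parts of equal weight, the residue degrees in the second group
being even unless `p` is a Wieferich prime, those in the third divisible by `3`.

(B) If moreover `[K : F]` is odd and `p` is not a Wieferich prime, there is above `w` a prime of `K` which is not
good; so the first case holds over `K` for these `p`.  The lower density of the primes which are not Wieferich
primes is at least `9 / 25`.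

(C) Let `L` be a Galois extension of `ℚ` which contains `K`.  The first case holds over `K` for a set of primes
`p` of lower Dirichlet density at least the proportion of the blocked elements of the Galois group of `L`: those
`g` for which, over some real abelian subfield `F` of `K`, the cycle type is not compatible with (2).

(D) If the Galois group of `K` is the symmetric or the alternating group of degree `d`, the first case holds over
`K` for a set of primes `p` of lower Dirichlet density at least `1 / 5` if `d ≥ 3`, and at least `1 - δ` if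
`d ≥ d₀(δ)`.  (E) If the degree of `K` is an odd prime number and the normal closure `L` is solvable, the density
is at least `1 - 1 / [L : ℚ]`: at least `5 / 6` for the cubic fields which are not cyclic, and `1 - 1 / (l (l - 1))`
for the field of an `l`-th root of a rational number.  (F) For every quartic field `K` which does not contain the
primitive cube roots of unity the density is at least `1 / 4`; it is at least `1 / (2 [K : ℚ])` for every quadratic
or quartic extension `K` of a real abelian field, without the primitive cube roots of unity.  (G) If the Galois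
field `L` contains `K` but not the primitive cube roots of unity, and the degree of `K` over some real abelian
subfield is not divisible by `3`, the density is at least `1 / (2 [L : ℚ])`.  By (B) and (F) the first case holds
for a positive proportion of the exponents over every `K` without the primitive cube roots of unity, if the degree
of `K` over some real abelian subfield is odd or less than `5`.

The proof.  Let `F` be contained in the field `M` of the `f`-th roots of unity, and let `t_(g,i)` be the residues
of `- b / a` at the `M`-embeddings of `K M` over the conjugates `g ∈ (ℤ / f)ˣ` of a place of `M` above `p`.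
Stickelberger's theorem for the field of the `f p`-th roots of unity, applied to the norm of
`(a + ζ b) / (a + ζ⁻¹ b)`, gives relations of Kummer type: for all even characters `χ` modulo `f` and all even
`m` a generalized Bernoulli number vanishes modulo `p`, or `∑ χ(g) ∑_{k ≥ 1} k ^ m t_(g,i) ^ k = 0`, the sum over
the good `(g, i)`.  For almost all `p` the `m` of the first kind contain no interval `[w, w ^ 4)` of a fixed
finite family (`H22GW.gapW`), and by `l`-adic interpolation and compactness the second relation can hold for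
all `m` in such intervals only if the `t_(g,i)` are stable under inversion up to `g ↦ - g` (`H59FD.sparseW`); the
same holds for `1 - t_(g,i)`.  As `F` is real, this gives (1) (`H72AB.master_real`).  The Frobenius automorphism
of the residue field of `w` permutes the roots over `w` and commutes with the group of the six fractional
linear substitutions; the stabilizers of its orbits in this group give the groups of (2)
(`H85FD.parts_of_S3`), a root `-1` being possible only if `2 ^ (p - 1) ≡ 1 (mod p ^ 2)`.  The exceptional sets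
for all `n` are contained, up to finitely many elements, in one set `B` (`H21.DZ.common`).  (B): the weight of all
the primes above `w` is `[K : F]`; for the density of the Wieferich primes see `H88.HF.low_cn`.  (C): in the
first case the residue degrees above `w` are the cycle lengths; the density is Frobenius' theorem, from the poles
of the Dedekind zeta functions.  (D): the permutations with an odd cycle of length `> d / 2`; the proportion of
the permutations whose cycle type splits tends to zero (`H29FE.few_split`).  (E): by Galois, every `g ≠ 1` has at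
most one fixed point, and its cycle type is `(l)` or `(1, k, ..., k)`.  (F): blocked are the elements with a fixed
point which move `ω`, those of type `(4)` which fix it, and for biquadratic fields the elements which are
blocked over a real quadratic subfield.  (G): blocked is the automorphism of `L(ω) / L`.
-/

open NumberField IsDedekindDomain

namespace Pool.Agent.Results.MP_ef6a16_nt.FirstCaseSplitting

/-- a solution of the Fermat equation in nonzero elements -/
def Sol {R : Type*} [CommRing R] (p : ℕ) (a b c : R) : Prop :=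
  a ≠ 0 ∧ b ≠ 0 ∧ c ≠ 0 ∧ a ^ p + b ^ p + c ^ p = 0

/-- the prime `v` divides none of `a, b, c` (up to a common factor) -/
def Good {K : Type*} [Field K] [NumberField K] (v : HeightOneSpectrum (𝓞 K)) (a b c : K) : Prop :=
  v.valuation K a = v.valuation K b ∧ v.valuation K b = v.valuation K c

/-- `v` is good and `a ^ 2 + a b + b ^ 2` is `0` modulo `v` (relative to `a ^ 2`), so that
`(a : b : c) = (1 : ω : ω ^ 2)` modulo `v` with a cube root of unity `ω ≠ 1` -/
def Cubic {K : Type*} [Field K] [NumberField K] (v : HeightOneSpectrum (𝓞 K)) (a b c : K) : Prop :=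
  Good v a b c ∧ v.valuation K (a ^ 2 + a * b + b ^ 2) < v.valuation K (a ^ 2)

/-- The first case of Fermat's Last Theorem for the exponent `p` over `K`: every solution has a prime above
`p` which divides one of `a, b, c` -/
def FirstCase (K : Type*) [Field K] [NumberField K] (p : ℕ) : Prop :=
  ∀ a b c : K, Sol p a b c →
    ∃ v : HeightOneSpectrum (𝓞 K), (p : 𝓞 K) ∈ v.asIdeal ∧ ¬ Good v a b c

/-- `F` is totally real and embeds into the field of the `n`-th roots of unity -/
def RealAbelian (n : ℕ) (F : Type*) [Field F] [NumberField F] : Prop :=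
  IsTotallyReal F ∧ Nonempty (F →+* CyclotomicField n ℚ)

/-- the multiplicities of `x`, `1 / x` and `1 - x` as roots of `N_{K/F}(a + X b)` modulo `w` agree, for all the
integral solutions which are coprime at `p` and all the homomorphisms `w` of `𝓞 F` to algebraically closed
fields of characteristic `p` -/
def Symmetric (F K : Type*) [Field F] [NumberField F] [Field K] [NumberField K] [Algebra F K]
    (p : ℕ) : Prop :=
  ∀ a b c : 𝓞 K, Sol p a b c →
    (∀ P : Ideal (𝓞 K), P.IsPrime → (p : 𝓞 K) ∈ P → ¬ (a ∈ P ∧ b ∈ P ∧ c ∈ P)) →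
    ∀ Q : Polynomial (𝓞 F), (∀ t : 𝓞 F, algebraMap (𝓞 F) F (Q.eval t) =
      Algebra.norm F (algebraMap (𝓞 K) K (a + algebraMap (𝓞 F) (𝓞 K) t * b))) →
    ∀ (Ω : Type) [Field Ω] [IsAlgClosed Ω] [CharP Ω p] (w : 𝓞 F →+* Ω) (x : Ω), x ≠ 0 → x ≠ 1 →
      (Q.map w).rootMultiplicity x = (Q.map w).rootMultiplicity x⁻¹ ∧
      (Q.map w).rootMultiplicity x = (Q.map w).rootMultiplicity (1 - x)

/-- `v` lies above `w` -/
def Above {F K : Type*} [Field F] [NumberField F] [Field K] [NumberField K] [Algebra F K]
    (v : HeightOneSpectrum (𝓞 K)) (w : HeightOneSpectrum (𝓞 F)) : Prop :=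
  v.asIdeal.LiesOver w.asIdeal

/-- the residue degree of `v` over `F` -/
noncomputable def deg (F : Type*) [Field F] [NumberField F] {K : Type*} [Field K] [NumberField K]
    [Algebra F K] (v : HeightOneSpectrum (𝓞 K)) : ℕ := v.asIdeal.inertiaDeg (𝓞 F)

/-- the local degree `e f` of `v` over `F` -/
noncomputable def wt (F : Type*) [Field F] [NumberField F] {K : Type*} [Field K] [NumberField K]
    [Algebra F K] (v : HeightOneSpectrum (𝓞 K)) : ℕ :=
  v.asIdeal.ramificationIdx (𝓞 F) * v.asIdeal.inertiaDeg (𝓞 F)

/-- `M` can be divided into `m` parts of equal weight -/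
def Parts {α : Type*} (wt : α → ℕ) (m : ℕ) (M : Multiset α) : Prop :=
  ∃ A : Fin m → Multiset α, M = ∑ i, A i ∧ ∀ i j, ((A i).map wt).sum = ((A j).map wt).sum

/-- the partition of the good primes above a prime `w` of `F` above `p`: the set `E` of the cubic primes, and
the other good primes in three groups -/
def Divided {F K : Type*} [Field F] [NumberField F] [Field K] [NumberField K] [Algebra F K]
    (p : ℕ) (a b c : K) (w : HeightOneSpectrum (𝓞 F)) : Prop :=
  ∃ E M₆ M₃ M₂ : Finset (HeightOneSpectrum (𝓞 K)),
    (∀ v, v ∈ E ↔ Above v w ∧ Cubic v a b c) ∧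
    (∀ v, (v ∈ M₆ ∨ v ∈ M₃ ∨ v ∈ M₂) ↔ Above v w ∧ Good v a b c ∧ ¬ Cubic v a b c) ∧
    Disjoint M₆ M₃ ∧ Disjoint M₆ M₂ ∧ Disjoint M₃ M₂ ∧
    (Nat.card (𝓞 F ⧸ w.asIdeal) % 3 = 2 → ∀ v ∈ E, Even (deg F v)) ∧
    (Nat.card (𝓞 F ⧸ w.asIdeal) % 3 = 1 → Parts (wt F) 2 E.val) ∧
    Parts (wt F) 6 M₆.val ∧
    Parts (wt F) 3 M₃.val ∧ (p ^ 2 ∣ 2 ^ (p - 1) - 1 ∨ ∀ v ∈ M₃, Even (deg F v)) ∧
    Parts (wt F) 2 M₂.val ∧ ∀ v ∈ M₂, 3 ∣ deg F v

/-- A multiset of cycle lengths splits: it consists of three groups; the first can be divided into three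
parts of equal sum; the second can be divided into two parts of equal sum, and its members are divisible by
`3` if `r = 2`; the members of the third are even, and it is empty unless `r = 2`. -/
def Splits (r : ℕ) (M : Multiset ℕ) : Prop :=
  ∃ A B C : Multiset ℕ, M = A + B + C ∧ Parts id 3 A ∧ Parts id 2 B ∧ (r = 2 → ∀ k ∈ B, 3 ∣ k) ∧
    (∀ k ∈ C, Even k) ∧ (r ≠ 2 → C = 0)

/-- the embeddings of `K` into `L` which extend the embedding `τ` of `F` -/
def Emb {F L : Type} [Field F] [Field L] (K : Type) [Field K] [Algebra F K] (τ : F →+* L) : Type :=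
  {σ : K →+* L // ∀ x : F, σ (algebraMap F K x) = τ x}

open Classical in
/-- the cycle lengths of the automorphism `h` of `L` on the embeddings of `K` which extend `τ` do not split;
here `r = 1` if `h` fixes the primitive cube roots of unity in `L`, `r = 2` if it does not, and both values of
`r` are taken if there are none in `L` -/
def NotSplit {F L : Type} [Field F] [Field L] (K : Type) [Field K] [Algebra F K] (τ : F →+* L)
    (h : L →+* L) : Prop :=
  ∃ (_ : Fintype (Emb K τ)) (π : Equiv.Perm (Emb K τ)), (∀ σ : Emb K τ, (π σ).1 = h.comp σ.1) ∧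
    ∀ r : ℕ, (r = 1 ∨ r = 2) → (∀ ω : L, ω ^ 2 + ω + 1 = 0 → (h ω = ω ↔ r = 1)) →
      ¬ Splits r π.partition.parts

/-- `g` is blocked: for some real abelian field `F` and extension `K / F`, and some embedding `τ` of `F` into
`L`, with an orbit of `k` elements under `g`, the cycle lengths of `g ^ k` on the embeddings of `K` which extend
`τ` do not split -/
def Blocked (K L : Type) [Field K] [Field L] (g : L →+* L) : Prop :=
  ∃ (F : Type) (_ : Field F) (_ : NumberField F) (_ : Algebra F K), (∃ n : ℕ, 0 < n ∧ RealAbelian n F) ∧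
    ∃ τ : F →+* L, NotSplit K τ (g ^ Function.minimalPeriod (fun τ : F →+* L => g.comp τ) τ)

/-- `L` is the normal closure of `K` -/
def IsClosure (K L : Type) [Field K] [NumberField K] [Field L] [NumberField L] : Prop :=
  Nonempty (K →ₐ[ℚ] L) ∧ IntermediateField.normalClosure ℚ K L = ⊤

/-- the primes in `S` have natural density zero in the set of all primes -/
def DensityZero (S : Set ℕ) : Prop :=
  ∀ ε : ℝ, 0 < ε → ∃ x₀ : ℕ, ∀ x : ℕ, x₀ ≤ x →
    ({p : ℕ | p.Prime ∧ p ≤ x ∧ p ∈ S}.ncard : ℝ) ≤ ε * (x / Real.log x)

/-- the primes in `S` have lower density at least `δ` in the set of all primes -/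
def LowerDensity (S : Set ℕ) (δ : ℝ) : Prop :=
  ∀ ε : ℝ, 0 < ε → ∃ x₀ : ℕ, ∀ x : ℕ, x₀ ≤ x →
    (δ - ε) * (x / Real.log x) ≤ ({p : ℕ | p.Prime ∧ p ≤ x ∧ p ∈ S}.ncard : ℝ)

open Classical in
/-- the primes in `S` have lower Dirichlet density at least `δ` -/
def LowerDirichlet (S : Set ℕ) (δ : ℝ) : Prop :=
  ∀ ε : ℝ, 0 < ε → ∃ s₀ : ℝ, 1 < s₀ ∧ ∀ s : ℝ, 1 < s → s < s₀ →
    (δ - ε) * Real.log (1 / (s - 1)) ≤ ∑' p : Nat.Primes, if (p : ℕ) ∈ S then ((p : ℕ) : ℝ) ^ (-s) else 0

private theorem lower_mono {K : Type} [Field K] [NumberField K] {δ δ' : ℝ}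
    (h : H10FG.LowerDirichlet {p | H10FG.FC K p} δ) (hδ : δ' ≤ δ) :
    LowerDirichlet {p : ℕ | FirstCase K p} δ' :=
  H10FG.LowerDirichlet.mono h (fun _ _ h a b c hs => h a b c hs.1 hs.2.1 hs.2.2.1 hs.2.2.2) hδ

theorem result :
    -- (A) for almost all exponents
    (∃ B : Set ℕ, DensityZero B ∧ ∀ n : ℕ, 0 < n → ∃ N : ℕ,
      ∀ (F : Type*) (K : Type*) [Field F] [NumberField F] [Field K] [NumberField K] [Algebra F K],
      RealAbelian n F → Module.finrank F K ≤ n → ∀ p : ℕ, p.Prime → N ≤ p → p ∉ B →
        Symmetric F K p ∧ ∀ a b c : K, Sol p a b c →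
          ∀ w : HeightOneSpectrum (𝓞 F), (p : 𝓞 F) ∈ w.asIdeal → Divided p a b c w ∧
          -- (B) odd relative degree: above `w` there is a prime of `K` which is not good
          (Odd (Module.finrank F K) → ¬ p ^ 2 ∣ 2 ^ (p - 1) - 1 →
            ∃ v : HeightOneSpectrum (𝓞 K), Above v w ∧ ¬ Good v a b c)) ∧
    LowerDensity {p : ℕ | ¬ p ^ 2 ∣ 2 ^ (p - 1) - 1} (9 / 25) ∧
    -- (C) the density of the blocked elements of the Galois group
    (∀ (K L : Type) [Field K] [NumberField K] [Field L] [NumberField L] [IsGalois ℚ L],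
      Nonempty (K →+* L) →
      LowerDirichlet {p : ℕ | FirstCase K p}
        ({g : Gal(L/ℚ) | Blocked K L g}.ncard / (Module.finrank ℚ L : ℝ))) ∧
    -- (D) the normal closure `L` of a field of degree `d` has degree `d!` or `d! / 2`
    (∀ (K L : Type) [Field K] [NumberField K] [Field L] [NumberField L] [IsGalois ℚ L], IsClosure K L →
      3 ≤ Module.finrank ℚ K → (Module.finrank ℚ K).factorial ≤ 2 * Module.finrank ℚ L →
      LowerDirichlet {p : ℕ | FirstCase K p} (1 / 5)) ∧
    (∀ δ : ℝ, 0 < δ → ∃ d₀ : ℕ, ∀ (K L : Type) [Field K] [NumberField K] [Field L] [NumberField L]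
      [IsGalois ℚ L], IsClosure K L →
      d₀ ≤ Module.finrank ℚ K → (Module.finrank ℚ K).factorial ≤ 2 * Module.finrank ℚ L →
      LowerDirichlet {p : ℕ | FirstCase K p} (1 - δ)) ∧
    -- (E) odd prime degree, solvable normal closure
    (∀ (K L : Type) [Field K] [NumberField K] [Field L] [NumberField L] [IsGalois ℚ L], IsClosure K L →
      (Module.finrank ℚ K).Prime → Module.finrank ℚ K ≠ 2 → Group.IsSolvable Gal(L/ℚ) →
      LowerDirichlet {p : ℕ | FirstCase K p} (1 - 1 / Module.finrank ℚ L)) ∧
    -- (F) quartic fields, quadratic and quartic extensions of real abelian fields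
    (∀ (K : Type) [Field K] [NumberField K], Module.finrank ℚ K = 4 → (∀ ω : K, ω ^ 2 + ω + 1 ≠ 0) →
      LowerDirichlet {p : ℕ | FirstCase K p} (1 / 4)) ∧
    (∀ (F K : Type) [Field F] [NumberField F] [Field K] [NumberField K] [Algebra F K],
      (∃ n : ℕ, 0 < n ∧ RealAbelian n F) → Module.finrank F K = 2 ∨ Module.finrank F K = 4 →
      (∀ ω : K, ω ^ 2 + ω + 1 ≠ 0) →
      LowerDirichlet {p : ℕ | FirstCase K p} (1 / (2 * Module.finrank ℚ K))) ∧
    -- (G) no primitive cube roots of unity in `L`, relative degree prime to three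
    (∀ (F K L : Type) [Field F] [NumberField F] [Field K] [NumberField K] [Algebra F K]
      [Field L] [NumberField L] [IsGalois ℚ L], (∃ n : ℕ, 0 < n ∧ RealAbelian n F) → Nonempty (K →+* L) →
      ¬ 3 ∣ Module.finrank F K → (∀ ω : L, ω ^ 2 + ω + 1 ≠ 0) →
      LowerDirichlet {p : ℕ | FirstCase K p} (1 / (2 * Module.finrank ℚ L))) := by
  refine ⟨?_, ?_, ?_, ?_, fun δ hδ => ?_, ?_, ?_, ?_, ?_⟩
  · choose B hB h using fun n : ℕ => H85FD2.main_all (n + 1) n.succ_pos
    obtain ⟨C, hC, hN⟩ := Pool.Agent.H21.DZ.common (fun n => {p | B n p})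
      fun n => Pool.Agent.H71.FD.densityZero_of_null' (B n) (hB n)
    refine ⟨C, hC, fun n hn => ?_⟩
    obtain ⟨m, rfl⟩ := Nat.exists_eq_succ_of_ne_zero hn.ne'
    obtain ⟨N, hN⟩ := hN m
    refine ⟨N, fun F K _ _ _ _ _ hF hd p hp hNp hpC => ?_⟩
    have hout := (h m p hp fun hb => hpC (hN p hb hNp)).2 F K hF hd
    refine ⟨hout.mult, fun a b c ⟨ha, hb, hc, hs⟩ w hw =>
      ⟨?_, fun hodd hW => hout.odd hodd hW a b c ha hb hc hs w hw⟩⟩
    classical
    obtain ⟨S, hS⟩ := H85FD2.exists_over (K := K) w
    obtain ⟨E, M6, M3, M2, h4⟩ := hout.parts a b c ha hb hc hs w hw (S.filter fun v => Good v a b c)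
      fun v => by rw [Finset.mem_filter, hS]; rfl
    obtain ⟨E', A, B', C, g1, g2, g3, g4, g5, g6, g7, g8, g9, g10, g11, g12⟩ := H85FD2.fins_of_split4 h4
    refine ⟨E', A, B', C, fun v => ?_, fun v => ?_, g3, g4, g5, g6, g7, g8, g9, g10, g11, g12⟩
    · rw [g1, Finset.mem_filter, hS]
      exact ⟨fun h => ⟨h.1.1, h.2⟩, fun h => ⟨⟨h.1, h.2.1⟩, h.2⟩⟩
    · rw [g2, Finset.mem_filter, hS]
      exact ⟨fun h => ⟨h.1.1, h.1.2, h.2⟩, fun h => ⟨⟨h.1, h.2.1⟩, h.2.2⟩⟩
  · exact Pool.Agent.H71.FD.lower_of_cn' _ (fun p => 5 ≤ p ∧ ¬ Pool.Agent.H11.NW.Wf p) (fun _ => False)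
      (9 / 25) (Pool.Agent.H88.HF.low_cn Pool.Agent.H80.HF.main_ineq)
      (Pool.Agent.H71.FD.Null_of_bounded 0 fun p _ hp => hp.elim) fun p _ hg _ => hg.2
  · intro K L _ _ _ _ _ hKL
    refine lower_mono (H85FD2.blocked_main K L hKL {g | Blocked K L g} ?_) le_rfl
    rintro g ⟨F, iF, iN, iA, hF, τ, hfin, π, hπ, hr⟩
    exact ⟨F, iF, iN, iA, hF, τ, hfin, _, π, hπ, hr⟩
  · intro K L _ _ _ _ _ ⟨⟨σ₁⟩, hgen⟩ h3 hL
    refine lower_mono (H10FG.long_lower σ₁) ?_
    have hpos : (0 : ℝ) < Module.finrank ℚ L := by
      exact_mod_cast (Module.finrank_pos : 0 < Module.finrank ℚ L)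
    rw [le_div_iff₀ hpos, one_div_mul_eq_div]
    exact H93FD.long_count h3 hgen hL
  · obtain ⟨d₀, h⟩ := Pool.Agent.H89.FE.large_degree δ hδ
    exact ⟨d₀, fun K L _ _ _ _ _ hc hd hL => lower_mono (h K L hc.2 hL hd) le_rfl⟩
  · intro K L _ _ _ _ _ ⟨⟨σ₁⟩, hgen⟩ hp h2 hsol
    exact lower_mono (H10FG.solv_lower hp h2 σ₁ hgen hsol) le_rfl
  · exact fun K _ _ h4 hω => lower_mono (Pool.Agent.H89.FE.quartic_lower h4 hω) le_rfl
  · exact fun F K _ _ _ _ _ hF h24 hω => lower_mono (H85FD2.small_lower hF h24 hω) le_rfl
  · exact fun F K L _ _ _ _ _ _ _ _ hF ⟨σ⟩ h3 hω => lower_mono (H85FD2.three_lower hF σ h3 hω) le_rfl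

end Pool.Agent.Results.MP_ef6a16_nt.FirstCaseSplitting
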